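import Pool.Agent.Helper760_TN.Upper
import Pool.Agent.Helper760_TN.Lower

namespace Pool.Agent.Results.MP_efd99a_gt.EvenSignQuotient

open Pool.Agent.Helper381 Pool.Agent.Helper760_TN Bundle Manifold
open scoped ContDiff

/-- There is a compact connected Riemannian symmetric space `M` of dimension `9` (the quotient of
`S³ × S³ × S³` by the sign changes `(ε₁, ε₂, ε₃)` with `ε₁ ε₂ ε₃ = 1`) whose two-number is `8`, while
its total Betti number with coefficients in the field with two elements is at least `32`. -/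
theorem result :
    ∃ (E : Type) (_ : NormedAddCommGroup E) (_ : NormedSpace ℝ E)
      (M : Type) (_ : MetricSpace M) (_ : CompactSpace M) (_ : ConnectedSpace M)
      (_ : ChartedSpace E M) (_ : IsManifold 𝓘(ℝ, E) ∞ M)
      (_ : RiemannianBundle (fun x : M => TangentSpace 𝓘(ℝ, E) x))
      (_ : IsContMDiffRiemannianBundle 𝓘(ℝ, E) ∞ E (fun x : M => TangentSpace 𝓘(ℝ, E) x))
      (_ : IsRiemannianManifold 𝓘(ℝ, E) M),
      Module.finrank ℝ E = 9 ∧ IsSymmetric M ∧ twoNumber M = 8 ∧
        32 ≤ totalBetti (ZMod 2) M := by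
  obtain ⟨N, i1, i2, i3, i4, i5, i6, i7, i8, p, hp⟩ := exists_model
  obtain ⟨R, G⟩ := riemannian_geo (E := EE) (M := N)
  exact ⟨EE, inferInstance, inferInstance, N, i1, i2, i3, i4, i5, i6, i7, i8, by simp,
    isSymmetric hp, le_antisymm (twoNumber_le hp G) (le_twoNumber hp), le_totalBetti hp G⟩

end Pool.Agent.Results.MP_efd99a_gt.EvenSignQuotient
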